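import Pool.Agent.Helper68.QC.St4

/-!
# PART M of project QD (MP_d112a4_gt), module IF2: the solution is conformal where the coefficient vanishes
-/

open MeasureTheory Set Filter Topology Complex
open scoped ContDiff ComplexConjugate ENNReal

namespace Pool.Agent.Helper39.QCM

open Pool.Agent.Helper68.QC

theorem pIF2 : StIF2 := by
  intro hEX hWEY k hk μ hμ U hU hz
  obtain ⟨-, -, a, b, hWD, hab⟩ := hEX k hk μ hμ
  refine hWEY U _ hU (nq μ).continuous.continuousOn fun φ hφ => ?_
  rw [hWD.dzb φ (hφ.mono (subset_univ _)), neg_eq_zero]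
  apply integral_eq_zero_of_ae
  rw [Measure.restrict_univ] at hab
  rw [ae_restrict_iff' hU.measurableSet] at hz
  filter_upwards [hab, hz] with z h1 h2
  by_cases hzU : z ∈ U
  · simp [h1, h2 hzU]
  · have h3 : φ z = 0 := image_eq_zero_of_notMem_tsupport (fun h => hzU (hφ.sub h))
    simp [h3]

end Pool.Agent.Helper39.QCM

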