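import Pool.Agent.Helper68.QC.St4

/-!
# PART M of project QD (MP_d112a4_gt), module ITW: uniqueness and multiplicativity of the intertwined matrix
-/

open MeasureTheory Set Filter Topology Complex
open scoped ContDiff ComplexConjugate ENNReal

namespace Pool.Agent.Helper39.QCM

open Pool.Agent.Helper68.QC

private theorem det1 (A : SL) : A 0 0 * A 1 1 - A 0 1 * A 1 0 = 1 := by
  have h := A.det_coe
  rw [Matrix.det_fin_two] at h
  exact h

private theorem mul_ij (A A' : SL) (i j : Fin 2) : (A * A') i j = A i 0 * A' 0 j + A i 1 * A' 1 j := by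
  rw [Matrix.SpecialLinearGroup.coe_mul, Matrix.mul_apply, Fin.sum_univ_two]

private theorem den_mul0 (A A' : SL) (z : ℂ) :
    den (A * A') z = A 1 0 * (A' 0 0 * z + A' 0 1) + A 1 1 * den A' z := by
  unfold den
  rw [mul_ij, mul_ij]
  ring

private theorem num_mul0 (A A' : SL) (z : ℂ) :
    (A * A') 0 0 * z + (A * A') 0 1 = A 0 0 * (A' 0 0 * z + A' 0 1) + A 0 1 * den A' z := by
  unfold den
  rw [mul_ij, mul_ij]
  ring

private theorem den_mul1 (A A' : SL) (z : ℂ) (h : den A' z ≠ 0) :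
    den (A * A') z = den A (mob A' z) * den A' z := by
  rw [den_mul0]
  have h1 : mob A' z * den A' z = A' 0 0 * z + A' 0 1 := by
    unfold mob
    rw [div_mul_cancel₀ _ h]
  rw [← h1]
  change _ = (A 1 0 * mob A' z + A 1 1) * den A' z
  ring

private theorem mob_mul1 (A A' : SL) (z : ℂ) (h : den A' z ≠ 0) :
    mob (A * A') z = mob A (mob A' z) := by
  have h1 : mob A' z * den A' z = A' 0 0 * z + A' 0 1 := by
    unfold mob
    rw [div_mul_cancel₀ _ h]
  have h2 : (A * A') 0 0 * z + (A * A') 0 1 = (A 0 0 * mob A' z + A 0 1) * den A' z := by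
    rw [num_mul0, ← h1]
    ring
  calc mob (A * A') z = ((A * A') 0 0 * z + (A * A') 0 1) / den (A * A') z := rfl
    _ = (A 0 0 * mob A' z + A 0 1) * den A' z / (den A (mob A' z) * den A' z) := by
        rw [h2, den_mul1 A A' z h]
    _ = (A 0 0 * mob A' z + A 0 1) / den A (mob A' z) := mul_div_mul_right _ _ h
    _ = mob A (mob A' z) := rfl

private theorem num_ne (A : SL) (z : ℂ) (h : den A z = 0) : A 0 0 * z + A 0 1 ≠ 0 := by
  intro h1
  have h2 := det1 A
  unfold den at h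
  have h3 : (1 : ℂ) = 0 := by
    linear_combination (-1 : ℂ) * h2 + A 0 0 * h - A 1 0 * h1
  exact one_ne_zero h3

private theorem mob_mul2 (A A' : SL) (z : ℂ) (h : den A' z = 0) :
    mob (A * A') z = A 0 0 / A 1 0 := by
  calc mob (A * A') z = ((A * A') 0 0 * z + (A * A') 0 1) / den (A * A') z := rfl
    _ = A 0 0 * (A' 0 0 * z + A' 0 1) / (A 1 0 * (A' 0 0 * z + A' 0 1)) := by
        rw [num_mul0, den_mul0, h, mul_zero, add_zero, mul_zero, add_zero]
    _ = A 0 0 / A 1 0 := mul_div_mul_right _ _ (num_ne A' z h)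

private theorem inf1 (A A' : SL) (h : A' 1 0 ≠ 0) :
    (A * A') 1 0 = den A (A' 0 0 / A' 1 0) * A' 1 0 ∧
      (A * A') 0 0 / (A * A') 1 0 = mob A (A' 0 0 / A' 1 0) := by
  have h1 : (A * A') 1 0 = den A (A' 0 0 / A' 1 0) * A' 1 0 := by
    rw [mul_ij]
    unfold den
    rw [add_mul, mul_assoc, div_mul_cancel₀ _ h]
  refine ⟨h1, ?_⟩
  have h2 : (A * A') 0 0 = (A 0 0 * (A' 0 0 / A' 1 0) + A 0 1) * A' 1 0 := by
    rw [mul_ij, add_mul, mul_assoc, div_mul_cancel₀ _ h]
  rw [h1, h2, mul_div_mul_right _ _ h]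
  rfl

private theorem inf2 (A A' : SL) (h : A' 1 0 = 0) :
    A' 0 0 ≠ 0 ∧ (A * A') 1 0 = A 1 0 * A' 0 0 ∧
      (A * A') 0 0 / (A * A') 1 0 = A 0 0 / A 1 0 := by
  have h0 : A' 0 0 ≠ 0 := by
    intro h1
    have h2 := det1 A'
    rw [h, h1] at h2
    simp at h2
  have h1 : (A * A') 1 0 = A 1 0 * A' 0 0 := by
    rw [mul_ij, h, mul_zero, add_zero]
  have h2 : (A * A') 0 0 = A 0 0 * A' 0 0 := by
    rw [mul_ij, h, mul_zero, add_zero]
  refine ⟨h0, h1, ?_⟩
  rw [h1, h2, mul_div_mul_right _ _ h0]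

private theorem neg_ij (B : SL) (i j : Fin 2) : (-B) i j = -(B i j) := by
  rw [Matrix.SpecialLinearGroup.coe_neg]
  rfl

private theorem part1 (A B B' : SL) (w : ℂ ≃ₜ ℂ) (h : Intw A B w) (h' : Intw A B' w) :
    B' = B ∨ B' = -B := by
  obtain ⟨h1, h2, -, -⟩ := h
  obtain ⟨h1', h2', -, -⟩ := h'
  have key : ∀ ζ : ℂ, (B 0 0 * ζ + B 0 1) * (B' 1 0 * ζ + B' 1 1) =
      (B' 0 0 * ζ + B' 0 1) * (B 1 0 * ζ + B 1 1) := by
    intro ζ
    obtain ⟨z, rfl⟩ := w.surjective ζ
    by_cases hz : den A z = 0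
    · have e1 : B 1 0 * w z + B 1 1 = 0 := (h1 z).1 hz
      have e2 : B' 1 0 * w z + B' 1 1 = 0 := (h1' z).1 hz
      rw [e1, e2, mul_zero, mul_zero]
    · have e1 : B 1 0 * w z + B 1 1 ≠ 0 := fun h => hz ((h1 z).2 h)
      have e2 : B' 1 0 * w z + B' 1 1 ≠ 0 := fun h => hz ((h1' z).2 h)
      have e3 : (B 0 0 * w z + B 0 1) / (B 1 0 * w z + B 1 1) =
          (B' 0 0 * w z + B' 0 1) / (B' 1 0 * w z + B' 1 1) := (h2 z hz).symm.trans (h2' z hz)
      rwa [div_eq_div_iff e1 e2] at e3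
  have k0 := key 0
  have k1 := key 1
  have k2 := key (-1)
  have d := det1 B
  have d' := det1 B'
  generalize hp : B 0 0 = p at *
  generalize hq : B 0 1 = q at *
  generalize hr : B 1 0 = r at *
  generalize hs : B 1 1 = s at *
  generalize hp' : B' 0 0 = p' at *
  generalize hq' : B' 0 1 = q' at *
  generalize hr' : B' 1 0 = r' at *
  generalize hs' : B' 1 1 = s' at *
  have c0 : q * s' - q' * s = 0 := by linear_combination k0
  have c2 : p * r' - p' * r = 0 := by linear_combination (k1 + k2) / 2 - k0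
  have c1 : p * s' + q * r' - p' * s - q' * r = 0 := by linear_combination (k1 - k2) / 2
  set l := p' * s - r' * q with hl
  have e1 : p' = l * p := by
    rw [hl]
    linear_combination (-p') * d + q * c2
  have e2 : r' = l * r := by
    rw [hl]
    linear_combination (-r') * d + s * c2
  have e3 : s' * p - q' * r = l := by
    rw [hl]
    linear_combination c1
  have e4 : q' = l * q := by
    rw [← e3]
    linear_combination (-q') * d - p * c0
  have e5 : s' = l * s := by
    rw [← e3]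
    linear_combination (-s') * d - r * c0
  have e6 : l * l = 1 := by
    rw [e1, e2, e4, e5] at d'
    linear_combination d' - l * l * d
  rcases mul_self_eq_one_iff.1 e6 with h | h
  · left
    rw [h] at e1 e2 e4 e5
    ext i j
    fin_cases i <;> fin_cases j
    · change B' 0 0 = B 0 0
      rw [hp, hp', e1, one_mul]
    · change B' 0 1 = B 0 1
      rw [hq, hq', e4, one_mul]
    · change B' 1 0 = B 1 0
      rw [hr, hr', e2, one_mul]
    · change B' 1 1 = B 1 1
      rw [hs, hs', e5, one_mul]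
  · right
    rw [h] at e1 e2 e4 e5
    ext i j
    rw [neg_ij]
    fin_cases i <;> fin_cases j
    · change B' 0 0 = -(B 0 0)
      rw [hp, hp', e1, neg_one_mul]
    · change B' 0 1 = -(B 0 1)
      rw [hq, hq', e4, neg_one_mul]
    · change B' 1 0 = -(B 1 0)
      rw [hr, hr', e2, neg_one_mul]
    · change B' 1 1 = -(B 1 1)
      rw [hs, hs', e5, neg_one_mul]

private theorem part2 (A A' B B' : SL) (w : ℂ ≃ₜ ℂ) (h : Intw A B w) (h' : Intw A' B' w) :
    Intw (A * A') (B * B') w := by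
  obtain ⟨h1, h2, h3, h4⟩ := h
  obtain ⟨h1', h2', h3', h4'⟩ := h'
  refine ⟨?_, ?_, ?_, ?_⟩
  · intro z
    by_cases hz : den A' z = 0
    · have hw : den B' (w z) = 0 := (h1' z).1 hz
      rw [den_mul0, den_mul0, hz, hw, mul_zero, mul_zero, add_zero, add_zero,
        mul_eq_zero_iff_right (num_ne A' z hz), mul_eq_zero_iff_right (num_ne B' (w z) hw)]
      exact h3
    · have hw : den B' (w z) ≠ 0 := fun h => hz ((h1' z).2 h)
      rw [den_mul1 A A' z hz, den_mul1 B B' (w z) hw, mul_eq_zero_iff_right hz,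
        mul_eq_zero_iff_right hw, ← h2' z hz]
      exact h1 _
  · intro z hd
    by_cases hz : den A' z = 0
    · have hw : den B' (w z) = 0 := (h1' z).1 hz
      rw [den_mul0, hz, mul_zero, add_zero] at hd
      rw [mob_mul2 A A' z hz, mob_mul2 B B' (w z) hw]
      exact h4 (left_ne_zero_of_mul hd)
    · have hw : den B' (w z) ≠ 0 := fun h => hz ((h1' z).2 h)
      rw [den_mul1 A A' z hz] at hd
      rw [mob_mul1 A A' z hz, mob_mul1 B B' (w z) hw, h2 _ (left_ne_zero_of_mul hd), h2' z hz]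
  · by_cases hz : A' 1 0 = 0
    · have hw : B' 1 0 = 0 := h3'.1 hz
      obtain ⟨a1, a2, -⟩ := inf2 A A' hz
      obtain ⟨b1, b2, -⟩ := inf2 B B' hw
      rw [a2, b2, mul_eq_zero_iff_right a1, mul_eq_zero_iff_right b1]
      exact h3
    · have hw : B' 1 0 ≠ 0 := fun h => hz (h3'.2 h)
      rw [(inf1 A A' hz).1, (inf1 B B' hw).1, mul_eq_zero_iff_right hz, mul_eq_zero_iff_right hw,
        ← h4' hz]
      exact h1 _
  · intro hd
    by_cases hz : A' 1 0 = 0
    · have hw : B' 1 0 = 0 := h3'.1 hz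
      obtain ⟨a1, a2, a3⟩ := inf2 A A' hz
      obtain ⟨b1, b2, b3⟩ := inf2 B B' hw
      rw [a2] at hd
      rw [a3, b3]
      exact h4 (left_ne_zero_of_mul hd)
    · have hw : B' 1 0 ≠ 0 := fun h => hz (h3'.2 h)
      rw [(inf1 A A' hz).1] at hd
      rw [(inf1 A A' hz).2, (inf1 B B' hw).2, h2 _ (left_ne_zero_of_mul hd), h4' hz]

private theorem part3 (A B : SL) (w : ℂ ≃ₜ ℂ) (h : Intw A B w) : Intw A (-B) w := by
  obtain ⟨h1, h2, h3, h4⟩ := h
  have hden : ∀ z, den (-B) z = -(den B z) := by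
    intro z
    unfold den
    rw [neg_ij, neg_ij]
    ring
  have hmob : ∀ z, mob (-B) z = mob B z := by
    intro z
    unfold mob
    rw [hden, neg_ij, neg_ij, ← neg_div_neg_eq]
    congr 1
    · ring
    · ring
  refine ⟨?_, ?_, ?_, ?_⟩
  · intro z
    rw [hden, neg_eq_zero]
    exact h1 z
  · intro z hz
    rw [hmob]
    exact h2 z hz
  · rw [neg_ij, neg_eq_zero]
    exact h3
  · intro hz
    rw [neg_ij, neg_ij, neg_div_neg_eq]
    exact h4 hz

theorem pITW : StITW := ⟨part1, part2, part3⟩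

end Pool.Agent.Helper39.QCM

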