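import Pool.Agent.Helper68.QC.St4

/-!
# PART M of project QD (MP_d112a4_gt), module SQT: holomorphic square roots on discs
-/

open MeasureTheory Set Filter Topology Complex
open scoped ContDiff ComplexConjugate ENNReal

namespace Pool.Agent.Helper39.QCM

open Pool.Agent.Helper68.QC

theorem pSQT : StSQT := by
  intro c r g e hr hg hne he
  have hc : c ∈ Metric.ball c r := Metric.mem_ball_self hr
  have hq : DifferentiableOn ℂ (fun z => deriv g z / g z) (Metric.ball c r) :=
    (hg.deriv Metric.isOpen_ball).div hg hne
  obtain ⟨P, hPc, hP⟩ := hq.isExactOn_ball.with_val_at c 0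
  have hgd : ∀ z ∈ Metric.ball c r, HasDerivAt g (deriv g z) z := fun z hz =>
    (hg.differentiableAt (Metric.isOpen_ball.mem_nhds hz)).hasDerivAt
  have hh : ∀ z ∈ Metric.ball c r, HasDerivAt (fun z => g z * exp (-P z)) 0 z := by
    intro z hz
    have h1 := (hgd z hz).mul (hP z hz).neg.cexp
    have h2 : deriv g z * exp (-P z) + g z * (exp (-P z) * -(deriv g z / g z)) = 0 := by
      have h3 := hne z hz
      field_simp
      ring
    have h5 : HasDerivAt (fun z => g z * exp (-P z))
        (deriv g z * exp (-P z) + g z * (exp (-P z) * -(deriv g z / g z))) z := h1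
    rw [h2] at h5
    exact h5
  have hconst : ∀ z ∈ Metric.ball c r, g z * exp (-P z) = g c := by
    intro z hz
    have h1 := (convex_ball c r).is_const_of_fderivWithin_eq_zero (𝕜 := ℂ)
      (f := fun z => g z * exp (-P z))
      (fun x hx => (hh x hx).differentiableAt.differentiableWithinAt)
      (fun x hx => by
        rw [fderivWithin_of_isOpen Metric.isOpen_ball hx]
        have h4 := (hh x hx).hasFDerivAt.fderiv
        rw [h4]
        ext
        simp) hz hc
    simpa [hPc] using h1
  refine ⟨fun z => e * exp (P z / 2), ?_, ?_, ?_⟩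
  · intro z hz
    exact (((hP z hz).differentiableAt.div_const 2).cexp.const_mul e).differentiableWithinAt
  · intro t ht
    have h1 := hconst t ht
    have h2 : exp (P t / 2) ^ 2 = exp (P t) := by
      rw [← Complex.exp_nat_mul]
      congr 1
      push_cast
      ring
    rw [mul_pow, h2, he, ← h1, mul_assoc, ← Complex.exp_add]
    simp
  · simp [hPc]

end Pool.Agent.Helper39.QCM

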